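import Mathlib
import Pool.Agent.W484.AA.Tate

/-!
# The Tate conjecture for products of almost all abelian varieties with varieties of small width

Let `g i` (`i` in a finite set `I`) be positive integers, `P` a natural number.  For a prime power
`q` let `S i` be the set of the characteristic polynomials of Frobenius of the ordinary abelian
varieties of dimension `g i` over the field with `q` elements, or of those of `p`-rank at least
`P`, or any set in between.  By Weil, Honda and Tate its elements correspond to the isogeny
classes, the first set contains the set `ordinaryWeilPolys q (g i)`, and the second one is contained
in `rankWeilPolys q (g i) P`.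

For all families `f i` in `S i` with the exception of a proportion `O (q ^ (-1 / 6) log q)` the
following holds for all abelian varieties `A` over the field with `q` elements, isogenous to a
product of powers of abelian varieties `A i` with characteristic polynomials `f i`, all `s > 0`, and
**all** smooth projective varieties `Y` over the field with `q ^ s` elements whose cohomology in
degree `w` has the property that the sum of the `|2 λ - w|`, `λ` the slopes of Frobenius, is smaller
than `2 P`: each class in `⋀ ^ n H ^ 1 (A) ⊗ H ^ w (Y)` which is a Tate class over some extension of
the field with `q ^ s` elements is a linear combination of products of classes of divisors on `A`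
and a Tate class in `H ^ w (Y)`; if `n` or `w` is odd it is zero.

Since the Newton polygon lies above the Hodge polygon (Mazur, Ogus) the sum of the `|2 λ - w|` is at
most the sum of the `|a - b| h ^ (a, b)` over `a + b = w`: it is at most `2 g` for the first
cohomology of a curve of genus `g` and at most `4 p_g` for the second cohomology of a surface. By
the theorem of Tate on divisors on abelian varieties the result implies: if all the cohomology of
`Y` is as above, then the Tate conjecture holds for `A × Y` if it holds for `Y`, for instance for
all curves `Y` of genus smaller than `P` and, if `P` is at least three, for all K3 surfaces `Y`,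
over all finite extensions.

The idea of the proof: by a sieve (helper521) almost all families are such that each pair `α`,
`q / α` of roots can be exchanged by a Galois automorphism which fixes all the other roots of all
the `f i`.  If a product of roots, no two with product `q`, and of an algebraic integer `ρ` of weight
`w` is a power of `q` up to a root of unity, then the flips show that `ρ` has at least `2 g i`
conjugates and that in the mean over the Galois group the deviation of the slope of `ρ` is at
least that of each root involved, `P / g i`.
-/

set_option autoImplicit false

namespace Pool.Agent.Results.MP_950c68_ag.AlmostAllTimesVarieties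

open Polynomial Pool.Agent.W521.Descent Pool.Agent.W521.Count Pool.Agent.W484.AA

/-- `weilPolys q g` is the set of monic integral polynomials of degree `2 g` with constant term
`q ^ g` and all roots of absolute value `√q`; `ordinaryWeilPolys q g` is the subset of those
whose coefficient of index `g` is prime to `q`, and `rankWeilPolys q g P` the subset of those
with a coefficient of index `2 g - r`, `P ≤ r ≤ g`, prime to `q` (`p`-rank at least `r`). -/
theorem result {I : Type} [Fintype I] (g : I → ℕ) (hg : ∀ i, 0 < g i) :
    ∃ C : ℝ, ∀ q : ℕ, IsPrimePow q → ∀ (P : ℕ) (S : I → Set ℤ[X]),
      (∀ i, ordinaryWeilPolys q (g i) ⊆ S i ∧ S i ⊆ rankWeilPolys q (g i) P) →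
      (∀ i, (S i).Finite ∧ (S i).Nonempty) ∧
      ({f : I → ℤ[X] | (∀ i, f i ∈ S i) ∧ ¬ TateForNarrow q P f}.ncard : ℝ) ≤
        C * (Real.log q * (q : ℝ) ^ (-(1 / 6) : ℝ)) * ∏ i, ((S i).ncard : ℝ) :=
  tate_count g hg

end Pool.Agent.Results.MP_950c68_ag.AlmostAllTimesVarieties
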