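import Mathlib
import Pool.Agent.W517.K3.Final

/-!
# Tate classes on the powers of K3 surfaces over finite fields

Let `X` be a K3 surface of finite height `h` over a finite field of characteristic `p`, `T` the
transcendental part of `H²(X̄, ℚ_ℓ(1))` (the part on which no power of the Frobenius `F` has the
eigenvalue `1`). After a finite extension of the base field the eigenvalues of `F` on `T` are the
conjugates of one number `α`, each with the same multiplicity `ε`, which generates a CM field `E`,
as do all its powers; there is exactly one place of `E` at which `α` has absolute value greater
than one, its local degree is `m = h / ε`, and `[E : ℚ] ε = 22 - ρ`, with the geometric Picard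
number `ρ`. Since `F` is semisimple on `T` and the remaining eigenvalues of `F` on
`H = H⁰(X̄, ℚ_ℓ) ⊕ H²(X̄, ℚ_ℓ(1)) ⊕ H⁴(X̄, ℚ_ℓ(2))` are roots of unity, the structure
`IsK3Frobenius` and the condition `HasK3Eigenvalues` hold. By the Künneth formula and Poincaré
duality the Tate classes (over finite extensions of the base field) of all codimensions on `Xⁿ` are
the `n`-linear forms on `H` that are fixed by a power of `F`.

We show that all Tate classes on all powers `Xⁿ` are linear combinations of products of Tate
classes on `X`, of Tate classes on `X × X`, and of norm classes, in each of the following cases:

* `m ≤ 2`, for example all K3 surfaces of height one and two;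
* `[E : ℚ]` is two times a prime number, or eight. So this covers all K3 surfaces of finite height
  with `[E : ℚ] ≤ 10`, in particular all those with Picard number `ρ ≥ 12`;
* `m` is a prime number and `[E : ℚ] < 4 m`, for example all K3 surfaces of height seven.

A norm class belongs to a proper CM subfield `K` of `E` for which the norm of `α` from `E` to `K`
is a root of unity: it is the product of one eigenvector of `F` for every embedding of `E` over a
given embedding of `K` (the analogue of the classes of Weil). The Tate conjecture is known
for `X` and for `X × X` (Charles, Madapusi Pera, Kim and Madapusi Pera; Ito, Ito and Koshikawa).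
So in these cases the Tate conjecture for all powers of `X` holds if no norm of `α` to a proper CM
subfield is a root of unity, for example if `E` has no proper CM subfields, and in general it is
reduced to norm classes. For `m = 1` there are no norm classes: this case (ordinary K3 surfaces) is
a theorem of Zarhin.

Some condition on `m` and `[E : ℚ]` is necessary: for `[E : ℚ] = 12`, `m = 3`, Galois group
`S₄ × {±1}`, the relation `α₁₂ α₁₃ α₁₄ = root of unity` is possible, where the
conjugates `α_ij` of `α` correspond to the roots `e_i - e_j` of the root system `A₃`; in
this example `E` has no proper CM subfield.

The proof determines the multiplicative relations of the conjugates of `α`: the odd functions `n` on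
the embeddings of `E` which are orthogonal to all Galois translates of the slope function `v`, which
takes the values `1`, `-1`, `0` and is `1` on one orbit of the local Galois group.
-/

namespace Pool.Agent.Results.MP_950c68_ag.K3Powers

open Pool.Agent.W517.K3 Module

/-- **Tate forms on powers of K3 surfaces of finite height** (with local degree at most two, or
`[E : ℚ] = 2 d` with `d` prime or `d = 4`, or local degree a prime number greater than `d / 2`) are
linear combinations of products of Tate forms in one variable, Tate forms in two variables and norm
forms which are Tate forms. -/
theorem result (p a : ℕ) [Fact p.Prime] (E : Type) [Field E] [NumberField E] (α : E)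
    (hα : IsK3Frobenius p a α) (d : ℕ) (hd : finrank ℚ E = 2 * d)
    (hcase : localDegree p α ≤ 2 ∨ d.Prime ∨ d = 4 ∨
      ((localDegree p α).Prime ∧ d < 2 * localDegree p α))
    (Ω : Type) [Field Ω] [IsAlgClosed Ω] [CharZero Ω]
    (H : Type) [AddCommGroup H] [Module Ω H] [FiniteDimensional Ω H] (F : H →ₗ[Ω] H)
    (hF : HasK3Eigenvalues α F)
    (n : ℕ) (φ : MultilinearMap Ω (fun _ : Fin n => H) Ω) (hφ : IsTateForm F φ) :
    φ ∈ Submodule.span Ω {ψ | IsProductOfBasicForms α F ψ} := by
  refine Submodule.span_mono ?_ (eigen_expand F α hF φ hφ)
  intro ψ hψ
  refine product_mem hα F hd ?_ ψ hψ
  rcases hcase with h | h | h | h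
  · exact Or.inl h
  · exact Or.inr (Or.inl h)
  · exact Or.inr (Or.inr (Or.inl h))
  · exact Or.inr (Or.inr (Or.inr (Or.inr h)))

end Pool.Agent.Results.MP_950c68_ag.K3Powers
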