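import Pool.Agent.W547.TF.Main

/-!
# Tate classes on all powers of ordinary abelian varieties of dimension at most seven

Let `A₀` be an ordinary abelian variety over the field with `q = p ^ a` elements, with
complex multiplication by a CM field `E` of degree `2 dim A₀ ≤ 14` that contains its Frobenius
endomorphism `π` (every ordinary simple abelian variety of dimension at most seven is of this form,
`E = ℚ(π)`). Its canonical lift `A` is the abelian variety with complex multiplication by `E` and the
CM type `Φ` given by the embeddings `φ` for which `φ (π)` has slope one.

Then, for every `n`, every finite extension of the base field and every degree, the Tate classes on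
`A₀ ^ n` are linear combinations, with coefficients in `ℚ_ℓ`, of the reductions of classes in the ring
generated by the classes of divisors on `A ^ n` and by the pull-backs, along homomorphisms
`A ^ n → Y`, of the Weil classes of imaginary quadratic fields on abelian fourfolds and sixfolds
`Y` of CM type and of split Weil type.

The Weil classes on abelian fourfolds of Weil type and on abelian sixfolds of split Weil type are
algebraic by theorems of Markman, and the reduction of an algebraic class is algebraic. So with these
theorems the Tate conjecture holds for all powers of all ordinary simple abelian varieties of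
dimension at most seven over finite fields.

The rational Tate module `V` of `A₀ ^ n`, which is also the one of `A ^ n`, is identified with
`K ⊗ E ^ n`, `K = ℚ_ℓ`.
-/

namespace Pool.Agent.Results.MP_950c68_ag.OrdinaryUpToDimensionSeven

open Module Pool.Agent.W547.KB Pool.Agent.W547.LD Pool.Agent.W530.NF Pool.Agent.W547.TF

/-- `A` is the canonical lift of an ordinary abelian variety `A₀` over the field with `q = p ^ a`
elements with complex multiplication by a CM field of degree `2 dim A₀ ≤ 14`, `V` is the rational
Tate module of `A₀ ^ n` and `F` the Frobenius endomorphism: the Tate classes `f` of degree `2 m` over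
the extension of degree `s` are generated. -/
theorem result (p : ℕ) [Fact p.Prime] (a : ℕ) (ha : 0 < a) (ν : PadicAlgCl p ≃+* ℂ) (A : CMPair)
    (hA : finrank ℚ A.E ≤ 14) (π : A.E) (hπ : IsCanonicalLift p a ν A π) (n : ℕ)
    {K V : Type} [Field K] [CharZero K] [AddCommGroup V] [Module K V]
    (C : Comparison (power A n) K V) (F : V →ₗ[K] V) (hF : IsFrobeniusMap C π F)
    {m s : ℕ} (hs : 0 < s) (f : V [⋀^Fin (2 * m)]→ₗ[K] K) (hf : IsTateClass F (p ^ a) s f) :
    IsGenerated C f :=
  tate p a ha ν A hA π hπ n C F hF hs f hf

end Pool.Agent.Results.MP_950c68_ag.OrdinaryUpToDimensionSeven
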