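import Pool.Agent.W495.TA.Main

/-!
# The Tate classes on `B ^ n × S`, `B` absolutely simple of dimension at most five, `S` supersingular

Over an algebraic closure of the field with `p` elements each abelian variety is isogenous to the
reduction of an abelian variety of CM type (Honda, Tate), and it is determined up to isogeny by its
Frobenius endomorphism, whose valuations are given by the formula of Shimura and Taniyama. So an
abelian variety over the field with `p ^ a` elements is modelled by a finite product `X` of CM types
`(E i, Φ i)` with Weil numbers `π i ∈ E i` that satisfy this formula (`RedAV`); its rational `ℓ`-adic
Tate module, with coefficients in an algebraically closed field `Ω`, is `Ω ⊗ H_1(X, ℚ)`, on which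
the Frobenius endomorphism acts by `π`.

Let `Y` be isogenous (over an algebraic closure) to `B ^ n × S`, where `S` is a supersingular abelian
variety of any dimension and `B` is the reduction of an abelian variety with complex multiplication
by a CM field of degree at most ten (each absolutely simple abelian variety of dimension at most five
is of this form; there is no condition on the Newton polygon). Then, for all `s` and `m`, each Tate
class of degree `2 m` on `Y` over the extension of degree `s` belongs to the smallest system of
cohomology classes of abelian varieties over finite fields that contains the Tate classes of degree
two and the reductions of the Weil classes of imaginary quadratic fields on abelian fourfolds and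
sixfolds of CM type and of split Weil type, and that is stable under linear combinations, cup
products, pull-backs along homomorphisms and push-forwards along projections.

Tate classes of degree two are combinations of classes of divisors (Tate), and the Weil classes are
algebraic by theorems of Markman. So, with these theorems, the Tate conjecture holds for these
abelian varieties in all codimensions.
-/

namespace Pool.Agent.Results.MP_950c68_ag.SimpleUpToDimensionFive

open Pool.Agent.W495.TA Pool.Agent.W547.KB

/-- `A` is a CM type whose field has degree at most ten, with Frobenius endomorphism `ϖ` over the
field with `p ^ b` elements, and `Y` is isogenous (over an algebraic closure) to a product of a power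
of the reduction of `A` and of a supersingular abelian variety: the Tate classes `f` of degree `2 m`
of `Y` over the extension of degree `s` belong to the system generated by Tate classes of degree two
and split Weil classes. -/
theorem result (p : ℕ) [Fact p.Prime] (ν : PadicAlgCl p ≃+* ℂ) (A : CMPair)
    (hA : Module.finrank ℚ A.E ≤ 10) (b : ℕ) (hb : 0 < b) (ϖ : A.E)
    (hϖ : IsFrobenius p ν A b ϖ) (Ω : Type) [Field Ω] [IsAlgClosed Ω] [CharZero Ω]
    (Y : RedAV p ν) (hY : IsPowerTimesSupersingular A b ϖ Y) (s m : ℕ) (hs : 0 < s)
    (f : (TM Ω Y) [⋀^Fin (2 * m)]→ₗ[Ω] Ω) (hf : IsTateClass Ω Y s m f) :
    Alg Ω Y (Fin (2 * m)) f :=
  main p ν A hA b hb ϖ hϖ Ω Y hY s m hs f hf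

end Pool.Agent.Results.MP_950c68_ag.SimpleUpToDimensionFive
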